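import Pool.Agent.Helper10.Fam.Stmts

set_option autoImplicit false

/-!
# RED: reduction to the chamber (MP_8410ab_nt, Lorentz family)
-/

namespace Pool.Agent.Helper10.Fam

open Pool.Agent.Helper10.Lor
open scoped BigOperators

theorem red_comm {n : ℕ} (x y : LV n) : form x y = form y x := by
  unfold form
  rw [real_inner_comm]
  ring

theorem red_add_right {n : ℕ} (x y z : LV n) : form x (y + z) = form x y + form x z := by
  unfold form
  simp only [Prod.snd_add, Prod.fst_add, inner_add_right]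
  ring

theorem red_smul_right {n : ℕ} (x : LV n) (c : ℝ) (y : LV n) :
    form x (c • y) = c * form x y := by
  unfold form
  simp only [Prod.smul_snd, Prod.smul_fst, inner_smul_right, smul_eq_mul]
  ring

theorem red_neg_right {n : ℕ} (x y : LV n) : form x (-y) = -form x y := by
  unfold form
  simp only [Prod.snd_neg, Prod.fst_neg, inner_neg_right]
  ring

theorem red_zero_right {n : ℕ} (x : LV n) : form x 0 = 0 := by
  unfold form
  simp

theorem red_sum_right {n : ℕ} (x : LV n) (s : Finset ℕ) (c : ℕ → ℝ) (y : ℕ → LV n) :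
    form x (∑ i ∈ s, c i • y i) = ∑ i ∈ s, c i * form x (y i) := by
  induction s using Finset.induction_on with
  | empty => simpa using red_zero_right x
  | insert a s ha ih =>
    rw [Finset.sum_insert ha, Finset.sum_insert ha, red_add_right, red_smul_right, ih]

theorem red_sub_left {n : ℕ} (x y z : LV n) : form (x - y) z = form x z - form y z := by
  rw [red_comm, sub_eq_add_neg, red_add_right, red_neg_right, red_comm z x, red_comm z y]
  ring

theorem red_smul_left {n : ℕ} (c : ℝ) (x y : LV n) : form (c • x) y = c * form x y := by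
  rw [red_comm, red_smul_right, red_comm y x]

/-- coordinates of the Weyl vector -/
noncomputable def redh (D : Dat) (i : ℕ) : ℝ :=
  (∑ k ∈ Finset.range (D.n + 2), (ent D.H i k : ℝ)) / D.d

theorem red_form_alp (hA : ST_ALPH) (D : Dat) (β : Fin D.n → E D.n) (hD : DOK D)
    (hβ : IsBase D β) (j : ℕ) (hj : j < D.n + 2) :
    form (rv D β (redh D)) (alp D β j) = 1 := by
  rw [hA.rv_form D β hD hβ (redh D) j hj]
  have hd : (D.d : ℝ) ≠ 0 := by
    have := hD.dpos
    positivity
  have e1 : ∑ i ∈ Finset.range (D.n + 2), (ent D.G i j : ℝ) * redh D i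
      = (∑ k ∈ Finset.range (D.n + 2), ∑ i ∈ Finset.range (D.n + 2),
        (ent D.H k i : ℝ) * ent D.G i j) / D.d := by
    unfold redh
    rw [Finset.sum_comm, Finset.sum_div]
    refine Finset.sum_congr rfl fun i hi => ?_
    rw [Finset.mem_range] at hi
    rw [mul_div_assoc', Finset.mul_sum]
    congr 1
    refine Finset.sum_congr rfl fun k hk => ?_
    rw [Finset.mem_range] at hk
    rw [hD.symH i hi k hk]
    ring
  have e2 : ∀ k ∈ Finset.range (D.n + 2), ∑ i ∈ Finset.range (D.n + 2),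
      (ent D.H k i : ℝ) * ent D.G i j = 2 * (ent D.H j k : ℝ) + if k = j then (D.d : ℝ) else 0 := by
    intro k hk
    rw [Finset.mem_range] at hk
    have h := hD.mat k hk j hj
    rw [hD.symH k hk j hj] at h
    have h2 : ((∑ i ∈ Finset.range (D.n + 2), ent D.H k i * ent D.G i j : ℕ) : ℝ)
        = ((2 * ent D.H j k + if k = j then D.d else 0 : ℕ) : ℝ) := by rw [h]
    push_cast at h2
    exact h2
  rw [e1, Finset.sum_congr rfl e2, Finset.sum_add_distrib, ← Finset.mul_sum,
    Finset.sum_ite_eq' (Finset.range (D.n + 2)) j, if_pos (Finset.mem_range.2 hj)]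
  unfold redh
  field_simp
  ring

theorem red_h_nonneg (D : Dat) (i : ℕ) : 0 ≤ redh D i := by
  unfold redh
  positivity

theorem red_h_pos (D : Dat) (hD : DOK D) : 0 < redh D (D.n + 1) := by
  unfold redh
  have hd : (0 : ℝ) < D.d := by exact_mod_cast hD.dpos
  refine div_pos (Finset.sum_pos' (fun i _ => by positivity) ⟨0, by simp, ?_⟩) hd
  have := hD.posH (D.n + 1) (by omega) 0 (by omega) (by
    intro h
    have := h.2
    omega)
  exact_mod_cast this

theorem red_self (hA : ST_ALPH) (D : Dat) (β : Fin D.n → E D.n) (hD : DOK D)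
    (hβ : IsBase D β) : form (rv D β (redh D)) (rv D β (redh D)) < 0 := by
  have e : form (rv D β (redh D)) (rv D β (redh D))
      = -∑ i ∈ Finset.range (D.n + 2), redh D i := by
    have e1 : rv D β (redh D) = -∑ i ∈ Finset.range (D.n + 2), redh D i • alp D β i := rfl
    calc form (rv D β (redh D)) (rv D β (redh D))
        = form (rv D β (redh D)) (-∑ i ∈ Finset.range (D.n + 2), redh D i • alp D β i) := by
          rw [← e1]
      _ = -∑ i ∈ Finset.range (D.n + 2), redh D i * form (rv D β (redh D)) (alp D β i) := by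
          rw [red_neg_right, red_sum_right]
      _ = -∑ i ∈ Finset.range (D.n + 2), redh D i := by
          congr 1
          refine Finset.sum_congr rfl fun i hi => ?_
          rw [Finset.mem_range] at hi
          rw [red_form_alp hA D β hD hβ i hi, mul_one]
  rw [e]
  have : 0 < ∑ i ∈ Finset.range (D.n + 2), redh D i :=
    Finset.sum_pos' (fun i _ => red_h_nonneg D i) ⟨D.n + 1, by simp, red_h_pos D hD⟩
  linarith

theorem red_fst (D : Dat) (β : Fin D.n → E D.n) (hD : DOK D) :
    0 < (rv D β (redh D)).1 := by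
  have e : (rv D β (redh D)).1 = redh D (D.n + 1) := by
    unfold rv
    rw [Prod.fst_neg, Prod.fst_sum, Finset.sum_range_succ, Finset.sum_range_succ]
    have h1 : ∑ x ∈ Finset.range D.n, (redh D x • alp D β x).1 = 0 := by
      refine Finset.sum_eq_zero fun x hx => ?_
      rw [Finset.mem_range] at hx
      unfold alp
      rw [dif_pos hx]
      simp
    have h2 : (redh D D.n • alp D β D.n).1 = 0 := by
      unfold alp
      rw [dif_neg (lt_irrefl _), if_pos rfl]
      simp
    have h3 : (redh D (D.n + 1) • alp D β (D.n + 1)).1 = -redh D (D.n + 1) := by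
      unfold alp
      rw [dif_neg (by omega), if_neg (by omega)]
      simp
    rw [h1, h2, h3]
    ring
  rw [e]
  exact red_h_pos D hD

/-- a bound for `uval` with respect to a timelike vector bounds the point -/
theorem red_bound {n : ℕ} (V : LV n) (h1 : 0 < V.1) (h2 : form V V < 0) (K : ℝ) (hK : 0 < K) :
    ∃ C a : ℝ, 0 < a ∧ ∀ q ∈ UH n, uval V q ≤ K → ‖q.1‖ ≤ C ∧ a ≤ q.2 := by
  obtain ⟨A, B, v⟩ := V
  have h1' : 0 < A := h1
  have h2' : ‖v‖ ^ 2 - A * B - B * A < 0 := by
    have : form ((A, B, v) : LV n) (A, B, v) = ‖v‖ ^ 2 - A * B - B * A := by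
      unfold form
      simp only
      rw [real_inner_self_eq_norm_sq]
    rw [← this]
    exact h2
  refine ⟨(2 * K + ‖v‖) / A, (2 * A * B - ‖v‖ ^ 2) / (2 * A * K), ?_, ?_⟩
  · refine div_pos (by linarith) (by positivity)
  · rintro ⟨z, r⟩ hr hq
    have hr' : 0 < r := hr
    have e : uval ((A, B, v) : LV n) (z, r)
        = (‖A • z - v‖ ^ 2 + (2 * A * B - ‖v‖ ^ 2) + A ^ 2 * r ^ 2) / (2 * r * A) := by
      unfold uval form vec
      simp only
      rw [@norm_sub_sq_real, norm_smul, inner_smul_left, inner_smul_left]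
      simp only [Real.norm_eq_abs, conj_trivial, mul_pow, sq_abs]
      field_simp
      ring
    rw [e, div_le_iff₀ (by positivity)] at hq
    have n1 : 0 ≤ ‖A • z - v‖ ^ 2 := sq_nonneg _
    have n2 : 0 ≤ A ^ 2 * r ^ 2 := by positivity
    have b1 : r ≤ 2 * K / A := by
      rw [le_div_iff₀ h1']
      have : A ^ 2 * r ^ 2 ≤ K * (2 * r * A) := by linarith
      have h3 : (r * A) * (r * A) ≤ (2 * K) * (r * A) := by nlinarith
      exact le_of_mul_le_mul_right h3 (by positivity)
    have b2 : ‖A • z - v‖ ≤ 2 * K := by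
      have h3 : ‖A • z - v‖ ^ 2 ≤ (2 * K) ^ 2 := by
        have h4 : ‖A • z - v‖ ^ 2 ≤ K * (2 * r * A) := by linarith
        have h5 : r * A ≤ 2 * K := by
          rw [le_div_iff₀ h1'] at b1
          exact b1
        nlinarith
      exact le_of_sq_le_sq h3 (by positivity)
    constructor
    · show ‖z‖ ≤ _
      rw [le_div_iff₀ h1']
      have h3 : ‖A • z‖ ≤ ‖A • z - v‖ + ‖v‖ := by
        have := norm_add_le (A • z - v) v
        rwa [sub_add_cancel] at this
      rw [norm_smul, Real.norm_eq_abs, abs_of_pos h1'] at h3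
      linarith
    · show _ ≤ r
      rw [div_le_iff₀ (by positivity)]
      nlinarith

theorem red_refl {n : ℕ} (V a : LV n) (ρ : LV n ≃ₗ[ℝ] LV n) (hρ : ρ ∈ LG n)
    (h : ∀ v, ρ v = v - form v a • a) (q : Pt n) (hq : q ∈ UH n) :
    uval V (act ρ q) = uval V q + form (vec q) a * form a V := by
  unfold uval
  rw [vec_act hρ hq, h, red_sub_left, red_smul_left]
  ring

theorem st_RED (hA : ST_ALPH) (hL : ST_LATT) : ST_RED := by
  intro D β hD hβ p hp
  obtain ⟨V, hV1, hV2, hVa⟩ : ∃ V : LV D.n, 0 < V.1 ∧ form V V < 0 ∧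
      ∀ i < D.n + 2, form V (alp D β i) = 1 :=
    ⟨rv D β (redh D), red_fst D β hD, red_self hA D β hD hβ,
      fun i hi => red_form_alp hA D β hD hβ i hi⟩
  have hF : ∀ q ∈ UH D.n, 0 < uval V q := by
    intro q hq
    obtain ⟨z, r⟩ := q
    have hr' : 0 < r := hq
    obtain ⟨A, B, v⟩ := V
    have h1' : 0 < A := hV1
    have h2' : ‖v‖ ^ 2 - A * B - B * A < 0 := by
      have : form ((A, B, v) : LV D.n) (A, B, v) = ‖v‖ ^ 2 - A * B - B * A := by
        unfold form
        simp only
        rw [real_inner_self_eq_norm_sq]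
      rw [← this]
      exact hV2
    have e : uval ((A, B, v) : LV D.n) (z, r)
        = (‖A • z - v‖ ^ 2 + (2 * A * B - ‖v‖ ^ 2) + A ^ 2 * r ^ 2) / (2 * r * A) := by
      unfold uval form vec
      simp only
      rw [@norm_sub_sq_real, norm_smul, inner_smul_left, inner_smul_left]
      simp only [Real.norm_eq_abs, conj_trivial, mul_pow, sq_abs]
      field_simp
      ring
    rw [e]
    have n1 : 0 ≤ ‖A • z - v‖ ^ 2 := sq_nonneg _
    have n2 : 0 ≤ A ^ 2 * r ^ 2 := by positivity
    exact div_pos (by linarith) (by positivity)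
  obtain ⟨C, a, ha, hb⟩ := red_bound V hV1 hV2 (uval V p) (hF p hp)
  have hE := hL.even D β hD hβ
  obtain ⟨U, hU, hU2, hfin⟩ := local_finite hE hp C a ha
  have hpU : p ∈ U := mem_of_mem_nhds hU
  have hS : {γ : OL (latOf β) | uval V (act (γ : LV D.n ≃ₗ[ℝ] LV D.n) p) ≤ uval V p}.Finite := by
    refine hfin.subset fun γ hγ => ?_
    have hγm : act (γ : LV D.n ≃ₗ[ℝ] LV D.n) p ∈ UH D.n := act_mem γ.2.1 hp
    exact ⟨p, hpU, hb _ hγm hγ⟩
  have hne : {γ : OL (latOf β) | uval V (act (γ : LV D.n ≃ₗ[ℝ] LV D.n) p)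
      ≤ uval V p}.Nonempty := by
    refine ⟨1, ?_⟩
    show uval V (act ((1 : OL (latOf β)) : LV D.n ≃ₗ[ℝ] LV D.n) p) ≤ uval V p
    rw [Subgroup.coe_one, act_one hp]
  obtain ⟨γ, hγ, hmin⟩ := Set.exists_min_image _
    (fun γ : OL (latOf β) => uval V (act (γ : LV D.n ≃ₗ[ℝ] LV D.n) p)) hS hne
  refine ⟨γ, γ.2, fun i hi => ?_⟩
  obtain ⟨ρ, hρ, hρ2⟩ := hL.rf_mem D β hD hβ i hi
  have hall : uval V (act (γ : LV D.n ≃ₗ[ℝ] LV D.n) p)
      ≤ uval V (act (ρ * (γ : LV D.n ≃ₗ[ℝ] LV D.n)) p) := by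
    by_cases h : uval V (act (ρ * (γ : LV D.n ≃ₗ[ℝ] LV D.n)) p) ≤ uval V p
    · exact hmin ⟨ρ * (γ : LV D.n ≃ₗ[ℝ] LV D.n), (OL (latOf β)).mul_mem hρ γ.2⟩ h
    · exact le_trans hγ (le_of_lt (not_le.1 h))
  have hq : act (γ : LV D.n ≃ₗ[ℝ] LV D.n) p ∈ UH D.n := act_mem γ.2.1 hp
  rw [act_mul ρ γ.2.1 hp] at hall
  have e : uval V (act ρ (act (γ : LV D.n ≃ₗ[ℝ] LV D.n) p))
      = uval V (act (γ : LV D.n ≃ₗ[ℝ] LV D.n) p)
        + form (vec (act (γ : LV D.n ≃ₗ[ℝ] LV D.n) p)) (alp D β i) := by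
    have h3 := red_refl V (alp D β i) ρ hρ.1 (fun v => by rw [hρ2 v, rf]) _ hq
    rw [h3, red_comm (alp D β i) V, hVa i hi, mul_one]
  rw [e] at hall
  unfold xc
  rw [if_pos hi]
  linarith

end Pool.Agent.Helper10.Fam
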